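import Pool.Agent.Work.MP_ef7f46_ll.All

set_option autoImplicit false
open Classical

/-!
Small epsilon-nets for points and lines in the plane: the nets exist for all weightings which are
not concentrated on few lines.

Let `P` be a finite set of points of the plane, `w` positive weights on the lines spanned by `P`,
`W` their sum, `H` a subset of `P`. A line spanned by `H` is called light if its weight is at most
`R * max (ε ^ 2) (1 / m) * W`, where `m` is the number of the lines spanned by `H`. If for every
point `p` of `H` the spanned lines through `p` which are light or not spanned by `H` have total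
weight at least `ε * W`, then at most `(1 / ε) (log R + 20)` lines spanned by `P` cover `H`.

With `H` the set of all `ε`-heavy points this gives `ε`-nets of size `(1 / ε) (log R + 20)` for
all weightings in which no line spanned by the heavy points is heavier than
`R * max (ε ^ 2) (1 / m) * W`.

`lineThrough p q` is the line through two distinct points, `spannedLines P` the finite set of
lines through two points of `P`.
-/

namespace Pool.Agent.Results.MP_ef7f46_co.LightLines

open EpsNet.Elem

theorem result (P H : Finset (ℝ × ℝ)) (w : Set (ℝ × ℝ) → ℝ) (hP : 2 ≤ P.card) (hH : H ⊆ P)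
    (hw : ∀ l ∈ spannedLines P, 0 < w l) (ε R : ℝ) (h0 : 0 < ε) (h1 : ε ≤ 1) (hR : 1 ≤ R)
    (hc : ∀ p ∈ H, ε * (∑ l ∈ spannedLines P, w l) ≤
      ∑ l ∈ spannedLines P with p ∈ l ∧ (l ∈ spannedLines H →
        w l ≤ R * max (ε ^ 2) (1 / ((spannedLines H).card : ℝ)) *
          (∑ l' ∈ spannedLines P, w l')), w l) :
    ∃ N ⊆ spannedLines P, (N.card : ℝ) ≤ 1 / ε * (Real.log R + 20) ∧
      ∀ p ∈ H, ∃ l ∈ N, p ∈ l :=
  Pool.LLN.all_LLH P H w hP hH hw ε R h0 h1 hR hc

end Pool.Agent.Results.MP_ef7f46_co.LightLines
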