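import Pool.Agent.Work.MP_ef7f46_co_helper84.Transfer

set_option autoImplicit false
open Classical

/-!
Small epsilon-nets for points and lines in the plane: for all small `ε` there are a finite point
set `P` in the plane and positive weights on the lines spanned by `P` such that every `ε`-net
(a set of spanned lines covering all points whose spanned lines carry at least `ε` of the total
weight) has more than `c (1/ε) log(1/ε) / log log(1/ε)` lines.

`lineThrough p q` is the line through two distinct points, `spannedLines P` the finite set of
lines through two points of `P`, and `IsEpsNet ε P w N` says that `N ⊆ spannedLines P` and that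
every point of `P` whose spanned lines have total weight at least `ε` times the total weight of
all spanned lines lies on a line of `N`.
-/

namespace Pool.Agent.Results.MP_ef7f46_co.NearLogLowerBound

open EpsNet.Elem

theorem result :
    ∃ c : ℝ, 0 < c ∧ ∃ ε₀ : ℝ, 0 < ε₀ ∧ ε₀ < 1 / 16 ∧ ∀ ε : ℝ, 0 < ε → ε < ε₀ →
      ∃ (P : Finset (ℝ × ℝ)) (w : Set (ℝ × ℝ) → ℝ),
        2 ≤ P.card ∧ (∀ l ∈ spannedLines P, 0 < w l) ∧
        ∀ N : Finset (Set (ℝ × ℝ)), IsEpsNet ε P w N →
          c * (1 / ε) * Real.log (1 / ε) / Real.log (Real.log (1 / ε)) < (N.card : ℝ) :=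
  final_elem

end Pool.Agent.Results.MP_ef7f46_co.NearLogLowerBound
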