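import Pool.Agent.Work.MP_ef7f46_pw.Small

set_option autoImplicit false
open Classical

/-!
Small epsilon-nets for points and lines in the plane: the nets exist for the weights given by the
pairs of points, and for all weightings which are comparable to them.

Let `P` be a finite set of points of the plane, `w` positive weights on the lines spanned by `P`,
`W` their sum, and `H ⊆ Q ⊆ P`. The share of a line `l` is the number of the pairs of points of
`Q` on `l`, divided by the number of all pairs of points of `Q`. If for every point `p` of `H` the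
spanned lines through `p` which are not spanned by `Q` or have weight at most `R * W` times their
share have total weight at least `ε * W`, then at most
`(1 / ε) (log R + log (5 + log (1 / ε)) + 30)` lines spanned by `P` cover `H`.

With `Q = P` and `w l` = the number of the pairs of points of `P` on `l` this gives `ε`-nets of
size `(1 / ε) (log (5 + log (1 / ε)) + 30)` for the pair weights.

Proof: a weighted linear form of the Szemeredi-Trotter theorem (file `MP_ef7f46_ll`).

`lineThrough p q` is the line through two distinct points, `spannedLines P` the finite set of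
lines through two points of `P`.
-/

namespace Pool.Agent.Results.MP_ef7f46_co.PairWeights

open EpsNet.Elem

theorem result (P Q H : Finset (ℝ × ℝ)) (w : Set (ℝ × ℝ) → ℝ) (hP : 2 ≤ P.card) (hQ : Q ⊆ P)
    (hH : H ⊆ Q) (hw : ∀ l ∈ spannedLines P, 0 < w l) (ε R : ℝ) (h0 : 0 < ε) (h1 : ε ≤ 1)
    (hR : 1 ≤ R)
    (hc : ∀ p ∈ H, ε * (∑ l ∈ spannedLines P, w l) ≤
      ∑ l ∈ spannedLines P with p ∈ l ∧ (l ∈ spannedLines Q →
        w l ≤ R * ((((Q.filter (fun x => x ∈ l)).card.choose 2 : ℕ) : ℝ) /
          ((Q.card.choose 2 : ℕ) : ℝ)) * (∑ l' ∈ spannedLines P, w l')), w l) :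
    ∃ N ⊆ spannedLines P, (N.card : ℝ) ≤
      1 / ε * (Real.log R + Real.log (5 + Real.log (1 / ε)) + 30) ∧
      ∀ p ∈ H, ∃ l ∈ N, p ∈ l :=
  Pool.LLN.all_PW P Q H w hP hQ hH hw ε R h0 h1 hR hc

end Pool.Agent.Results.MP_ef7f46_co.PairWeights
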