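import Pool.Agent.Work.MP_ef7f46_co_helper84.Elem
import Pool.Agent.Work.MP_ef7f46_tn_helper86.All2

set_option autoImplicit false
open Classical

/-!
Tight lower bound for strong `ε`-nets of points and lines in the plane (nets chosen from the
ground set), in the classical form and in the weighted dual form of the problem.

Classical form: for all small `ε` there is a finite point set `P` in the plane such that every
`T ⊆ P` meeting all lines which contain at least `ε |P|` points of `P` has at least
`c (1/ε) log(1/ε)` points.

Weighted dual form: for all small `ε` there are a finite point set `P` and positive weights on the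
lines spanned by `P` such that every `ε`-heavy point (a point whose spanned lines carry at least
`ε` of the total weight) lies on a line of weight at least `ε²` times the total weight, and every
`ε`-net (a set of spanned lines covering all `ε`-heavy points) all of whose lines have at least
this weight has at least `c (1/ε) log(1/ε)` lines.

`lineThrough p q` is the line through two distinct points, `spannedLines P` the finite set of
lines through two points of `P`, `IsEpsNet ε P w N` says that `N ⊆ spannedLines P` and that
every point of `P` whose spanned lines have total weight at least `ε` times the total weight of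
all spanned lines lies on a line of `N` (all three from the file `Elem`).
-/

namespace Pool.Agent.Results.MP_ef7f46_co.TightStrongNets

open EpsNet.Elem

/-- `T ⊆ P` is a (strong) `ε`-net of `P` for lines: every line `a x + b y = c` containing at least
`ε |P|` points of `P` contains a point of `T`. -/
def IsPointNet (ε : ℝ) (P T : Finset (ℝ × ℝ)) : Prop :=
  T ⊆ P ∧ ∀ a b c : ℝ, (a, b) ≠ (0, 0) →
    ε * (P.card : ℝ) ≤ ((P.filter (fun p => a * p.1 + b * p.2 = c)).card : ℝ) →
    ∃ p ∈ T, a * p.1 + b * p.2 = c

theorem result :
    ∃ c : ℝ, 0 < c ∧ ∃ ε₀ : ℝ, 0 < ε₀ ∧ ε₀ < 1 ∧ ∀ ε : ℝ, 0 < ε → ε < ε₀ →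
      (∃ P : Finset (ℝ × ℝ), P.Nonempty ∧ ∀ T : Finset (ℝ × ℝ), IsPointNet ε P T →
        c * (1 / ε) * Real.log (1 / ε) ≤ (T.card : ℝ)) ∧
      (∃ (P : Finset (ℝ × ℝ)) (w : Set (ℝ × ℝ) → ℝ), 2 ≤ P.card ∧
        (∀ l ∈ spannedLines P, 0 < w l) ∧
        (∀ p ∈ P, ε * (∑ l ∈ spannedLines P, w l) ≤ (∑ l ∈ spannedLines P with p ∈ l, w l) →
          ∃ l ∈ spannedLines P, p ∈ l ∧ ε ^ 2 * (∑ l' ∈ spannedLines P, w l') ≤ w l) ∧
        ∀ N : Finset (Set (ℝ × ℝ)), IsEpsNet ε P w N →
          (∀ l ∈ N, ε ^ 2 * (∑ l' ∈ spannedLines P, w l') ≤ w l) →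
          c * (1 / ε) * Real.log (1 / ε) ≤ (N.card : ℝ)) :=
  TN.a_fin2

end Pool.Agent.Results.MP_ef7f46_co.TightStrongNets
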